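import Pool.Agent.AD97.C
import Pool.Graph.R_pool_sql_team_39128cda.H.MP_ad338c_an.B

/-!
MP_ad338c_an, Q1 and Q2: complete classification. For every subgroup `Λ` of the circle, the group of
interval exchanges with flips over `Λ` (and every subgroup of it containing the elements which are
piecewise orientation-preserving or piecewise orientation-reversing) is realizable if and only if it
is stably realizable, if and only if `Λ` is a torsion group.
-/

set_option autoImplicit false

open Filter Set Topology Equiv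

namespace Pool.Agent.Results.MP_ad338c_an.TorsionClassification

/-- The circle `ℝ / ℤ`. -/
abbrev S : Type := AddCircle (1 : ℝ)

/-- `f` moves only finitely many points. -/
def FinSupp (f : Perm S) : Prop := {x | f x ≠ x}.Finite

lemma FinSupp.one : FinSupp 1 := by simp [FinSupp]

lemma FinSupp.mul {f g : Perm S} (hf : FinSupp f) (hg : FinSupp g) : FinSupp (f * g) :=
  (Set.Finite.union hf hg).subset (by
    intro x hx
    by_contra h
    simp only [mem_union, mem_ofPred_eq, not_or, not_not] at h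
    exact hx (by rw [Perm.mul_apply, h.2, h.1]))

lemma FinSupp.inv {f : Perm S} (hf : FinSupp f) : FinSupp f⁻¹ :=
  Set.Finite.subset hf (by
    intro x hx h
    exact hx (by rw [Perm.inv_eq_iff_eq]; exact h.symm))

/-- The normal subgroup of finitely supported permutations of the circle. -/
def FS : Subgroup (Perm S) where
  carrier := {f | FinSupp f}
  one_mem' := FinSupp.one
  mul_mem' := FinSupp.mul
  inv_mem' := FinSupp.inv

lemma FS_normal : FS.Normal := ⟨fun f hf g => (Set.Finite.image g hf).subset (by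
  intro x hx
  refine ⟨g⁻¹ x, fun h => hx ?_, by simp⟩
  simp only [Perm.mul_apply]
  rw [h]
  simp)⟩

instance : FS.Normal := FS_normal

/-- Permutations of the circle modulo finitely supported ones. -/
def PC : Type := Perm S ⧸ FS

noncomputable instance : Group PC := inferInstanceAs (Group (Perm S ⧸ FS))

/-- The class of a permutation. -/
noncomputable def cls : Perm S →* PC := QuotientGroup.mk' FS

/-- Near `x` the map `f` is the translation by `c`. -/
def LocT (f : Perm S) (x c : S) : Prop := ∀ᶠ y in 𝓝 x, f y = y + c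

/-- Near `x` the map `f` is the flip `y ↦ -y + c`. -/
def LocF (f : Perm S) (x c : S) : Prop := ∀ᶠ y in 𝓝 x, f y = -y + c

/-- Off a finite subset of `Λ`, the permutation `f` is locally `y ↦ ± y + c` with `c ∈ Λ`. -/
def Flip (Λ : AddSubgroup S) (f : Perm S) : Prop :=
  ∃ F : Set S, F.Finite ∧ F ⊆ Λ ∧ ∀ x ∉ F, ∃ c ∈ Λ, LocT f x c ∨ LocF f x c

/-- The same, with one sign for all `x`: piecewise orientation-preserving or piecewise
orientation-reversing. -/
def FlipPure (Λ : AddSubgroup S) (f : Perm S) : Prop :=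
  ∃ F : Set S, F.Finite ∧ F ⊆ Λ ∧
    ((∀ x ∉ F, ∃ c ∈ Λ, LocT f x c) ∨ (∀ x ∉ F, ∃ c ∈ Λ, LocF f x c))

/-- The group of interval exchanges with flips over `Λ`, modulo finitely supported permutations. -/
noncomputable def IET (Λ : AddSubgroup S) : Subgroup PC := Subgroup.closure (cls '' {f | Flip Λ f})

/-- Its subgroup generated by the elements which are piecewise orientation-preserving or piecewise
orientation-reversing. -/
noncomputable def IETPure (Λ : AddSubgroup S) : Subgroup PC := Subgroup.closure (cls '' {f | FlipPure Λ f})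

/-- `Γ` lifts to a group of permutations of the circle. -/
def Realizable (Γ : Subgroup PC) : Prop :=
  ∃ s : Γ →* Perm S, ∀ γ : Γ, cls (s γ) = γ

/-- `g` and `f ⊔ id` differ at finitely many points. -/
def Near {Y : Type*} (g : Perm (S ⊕ Y)) (f : Perm S) : Prop := {x | g x ≠ Sum.map f id x}.Finite

/-- The near action of `Γ` on the disjoint union of the circle and `Y`, trivial on `Y`, lifts to
an action by permutations. -/
def StablyRealizable (Γ : Subgroup PC) (Y : Type*) : Prop :=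
  ∃ s : Γ →* Perm (S ⊕ Y), ∀ (γ : Γ) (f : Perm S), cls f = γ → Near (s γ) f

/-- All elements of `Λ` have finite order. -/
def Torsion (Λ : AddSubgroup S) : Prop := ∀ x ∈ Λ, IsOfFinAddOrder x

lemma fin_of_eq {f g : Perm S} (h : cls f = cls g) : {x | f x ≠ g x}.Finite := by
  have h2 : f⁻¹ * g ∈ FS := QuotientGroup.eq.1 h
  refine Set.Finite.subset h2 fun x hx h' => hx ?_
  rw [Perm.mul_apply, Perm.inv_eq_iff_eq] at h'
  exact h'.symm

lemma eq_of_fin {f g : Perm S} (h : {x | f x ≠ g x}.Finite) : cls f = cls g := by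
  refine QuotientGroup.eq.2 ?_
  refine Set.Finite.subset h fun x hx h' => hx ?_
  rw [Perm.mul_apply, ← h']
  simp

lemma Realizable.stably {Γ : Subgroup PC} (h : Realizable Γ) (Y : Type*) :
    StablyRealizable Γ Y := by
  obtain ⟨s, hs⟩ := h
  refine ⟨((Perm.sumCongrHom S Y).comp (MonoidHom.inl _ _)).comp s, fun γ f hf => ?_⟩
  have := fin_of_eq ((hs γ).trans hf.symm)
  refine (this.image Sum.inl).subset ?_
  rintro (x | x) hx
  · exact ⟨x, fun h => hx (by simp [h]), rfl⟩
  · exact absurd (by simp) hx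

open Pool.Agent.H.MP_ad338c_an in
lemma pure_sw {Λ : AddSubgroup S} {a b : ℝ} (ha : (a : S) ∈ Λ) (hb : (b : S) ∈ Λ) {γ : S}
    (hγ : γ ∈ Λ) {f : Perm S} (hf : IsSw (arc a b) γ f) : FlipPure Λ f := by
  refine ⟨{(a : S), (b : S), (a : S) + γ, (b : S) + γ}, Set.toFinite _, ?_,
    Or.inl fun x hx => ?_⟩
  · rintro _ (rfl | rfl | rfl | rfl)
    exacts [ha, hb, Λ.add_mem ha hγ, Λ.add_mem hb hγ]
  simp only [mem_insert_iff, mem_singleton_iff, not_or] at hx
  have key : ∀ z : S, z ≠ a → z ≠ b → z ∉ arc a b → z ∉ carc a b := by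
    rintro _ h1 h2 h3 ⟨s, hs, rfl⟩
    refine h3 ⟨s, ⟨lt_of_le_of_ne hs.1 ?_, lt_of_le_of_ne hs.2 ?_⟩, rfl⟩
    · rintro rfl; exact h1 rfl
    · rintro rfl; exact h2 rfl
  have hc : Continuous fun y : S => y - γ := by fun_prop
  by_cases h1 : x ∈ arc a b
  · refine ⟨γ, hγ, ?_⟩
    filter_upwards [(isOpen_arc a b).mem_nhds h1] with y hy using hf.1 y hy
  by_cases h2 : x - γ ∈ arc a b
  · refine ⟨-γ, Λ.neg_mem hγ, ?_⟩
    filter_upwards [((isOpen_arc a b).preimage hc).mem_nhds h2] with y hy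
    rw [hf.2.1 y hy, sub_eq_add_neg]
  · refine ⟨0, Λ.zero_mem, ?_⟩
    have h3 := key x hx.1 hx.2.1 h1
    have h4 := key (x - γ) (fun h => hx.2.2.1 (by rw [← h]; simp))
      (fun h => hx.2.2.2 (by rw [← h]; simp)) h2
    filter_upwards [(isClosed_carc a b).isOpen_compl.mem_nhds h3,
      ((isClosed_carc a b).isOpen_compl.preimage hc).mem_nhds h4] with y hy hy'
    rw [hf.2.2 y (fun h => hy (arc_sub _ _ h)) (fun h => hy' (arc_sub _ _ h)), add_zero]

open Pool.Agent.H.MP_ad338c_an in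
theorem not_stable (Λ : AddSubgroup S) (hΛ : ∃ α ∈ Λ, ¬ IsOfFinAddOrder α)
    (Γ : Subgroup PC) (hΓ : IETPure Λ ≤ Γ) (Y : Type*) : ¬ StablyRealizable Γ Y := by
  classical
  rintro ⟨s, hs⟩
  obtain ⟨α, hα, hinf⟩ := hΛ
  let H : Subgroup (Perm S) := Γ.comap cls
  have hPI : ∀ f, FlipPure Λ f → f ∈ H := fun f hf => hΓ (Subgroup.subset_closure ⟨f, hf, rfl⟩)
  let σ : Perm S → Perm (S ⊕ Y) := fun f => if h : f ∈ H then s ⟨cls f, h⟩ else 1
  have hσ : ∀ f (h : f ∈ H), σ f = s ⟨cls f, h⟩ := fun f h => dif_pos h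
  refine Ctx.false (α := α) (H := H) (σ := σ) ⟨hinf, ?_, ?_, ?_, ?_, ?_, ?_⟩
  · intro f hf g hg
    rw [hσ _ (H.mul_mem hf hg), hσ _ hf, hσ _ hg, ← map_mul]
    rfl
  · intro f hf
    rw [hσ _ hf]
    exact hs _ f rfl
  · intro f hf
    have h1 : cls f = 1 := (QuotientGroup.eq_one_iff f).2 hf
    have h2 : f ∈ H := by
      change cls f ∈ Γ
      rw [h1]
      exact one_mem _
    refine ⟨h2, ?_⟩
    rw [hσ _ h2, ← map_one s]
    congr 1
    exact Subtype.ext h1
  · intro n
    exact hPI _ ⟨∅, finite_empty, empty_subset _, Or.inl fun x _ =>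
      ⟨n • α, Λ.zsmul_mem hα n, Eventually.of_forall fun y => rfl⟩⟩
  · exact hPI _ ⟨∅, finite_empty, empty_subset _, Or.inr fun x _ =>
      ⟨0, Λ.zero_mem, Eventually.of_forall fun y => by simp⟩⟩
  · rintro a b ⟨n, hn⟩ ⟨m, hm⟩ k f hf
    exact hPI _ (pure_sw (hn ▸ Λ.zsmul_mem hα n) (hm ▸ Λ.zsmul_mem hα m) (Λ.zsmul_mem hα k) hf)

open Pool.Agent.AD97 in
theorem realizable_of_torsion (Λ : AddSubgroup S) (hΛ : ∀ x ∈ Λ, IsOfFinAddOrder x)
    (Γ : Subgroup PC) (hΓ : Γ ≤ IET Λ) : Realizable Γ := by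
  obtain ⟨m, c⟩ := exists_chain hΛ
  let ψ : c.TT →* PC := cls.comp c.hom
  have hinj : Function.Injective ψ := by
    rw [injective_iff_map_eq_one]
    intro T hT
    exact c.hom_inj T ((QuotientGroup.eq_one_iff (c.hom T)).1 hT)
  have hle : Γ ≤ ψ.range := by
    refine hΓ.trans ?_
    rw [IET, Subgroup.closure_le]
    rintro _ ⟨f, hf, rfl⟩
    obtain ⟨T, hT⟩ := c.exists_T (f := f) hf
    exact ⟨T, eq_of_fin hT⟩
  refine ⟨(c.hom.comp (MonoidHom.ofInjective hinj).symm.toMonoidHom).comp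
    (Subgroup.inclusion hle), fun γ => ?_⟩
  have h1 := (MonoidHom.ofInjective hinj).apply_symm_apply (Subgroup.inclusion hle γ)
  exact congrArg Subtype.val h1

universe u

lemma pure_le (Λ : AddSubgroup S) : IETPure Λ ≤ IET Λ := by
  rw [IETPure, Subgroup.closure_le]
  rintro _ ⟨f, ⟨F, h1, h2, h3 | h3⟩, rfl⟩
  · refine Subgroup.subset_closure ⟨f, ⟨F, h1, h2, fun x hx => ?_⟩, rfl⟩
    obtain ⟨c, hc, h⟩ := h3 x hx
    exact ⟨c, hc, Or.inl h⟩
  · refine Subgroup.subset_closure ⟨f, ⟨F, h1, h2, fun x hx => ?_⟩, rfl⟩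
    obtain ⟨c, hc, h⟩ := h3 x hx
    exact ⟨c, hc, Or.inr h⟩

/-- **Classification.** For every subgroup `Λ` of the circle and every group `Γ` between the group
generated by the piecewise orientation-preserving and the piecewise orientation-reversing elements
and the full group of interval exchanges with flips over `Λ`: `Γ` is realizable iff `Γ` is stably
realizable (with any given set `Y`) iff `Λ` is a torsion group. -/
theorem result (Λ : AddSubgroup S) : IETPure Λ ≤ IET Λ ∧
    ∀ Γ : Subgroup PC, IETPure Λ ≤ Γ → Γ ≤ IET Λ →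
      (Realizable Γ ↔ Torsion Λ) ∧ ∀ Y : Type u, (StablyRealizable Γ Y ↔ Torsion Λ) := by
  refine ⟨pure_le Λ, fun Γ h1 h2 => ?_⟩
  have h3 : ∀ Y : Type u, StablyRealizable Γ Y → Torsion Λ := by
    intro Y h x hx
    by_contra hn
    exact not_stable Λ ⟨x, hx, hn⟩ Γ h1 Y h
  exact ⟨⟨fun h => h3 PEmpty (h.stably _), fun h => realizable_of_torsion Λ h Γ h2⟩,
    fun Y => ⟨h3 Y, fun h => (realizable_of_torsion Λ h Γ h2).stably Y⟩⟩

end Pool.Agent.Results.MP_ad338c_an.TorsionClassification
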